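import Mathlib

/-!
# Every faithful action of `S_n` has base size at most `n` (MP_3e5dca_al)
-/

namespace Pool.Agent.Results.MP_3e5dca_al.BaseSizeLeDegree

open Equiv MulAction

universe u

/-! ### Definitions -/

/-- `B` is a base for the action of `G` on `X`: the pointwise stabiliser of `B` is trivial. -/
def IsBase (G : Type*) {X : Type*} [Group G] [MulAction G X] (B : Set X) : Prop :=
  ∀ g : G, (∀ x ∈ B, g • x = x) → g = 1

/-- The base size: the smallest cardinality of a base. -/
noncomputable def baseSize (G X : Type*) [Group G] [MulAction G X] : ℕ :=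
  sInf {k | ∃ B : Finset X, IsBase G (B : Set X) ∧ B.card = k}

/-! ### Greedy extension -/

section Greedy

variable {G X : Type*} [Group G] [Finite G] [MulAction G X] [FaithfulSMul G X]

theorem greedy (t : ℕ) : ∀ S : Finset X, Nat.card (fixingSubgroup G (S : Set X)) < 2 ^ (t + 1) →
    ∃ B : Finset X, IsBase G (B : Set X) ∧ B.card ≤ S.card + t := by
  classical
  induction t with
  | zero =>
    intro S hS
    refine ⟨S, fun g hg => ?_, by simp⟩
    have h1 : fixingSubgroup G (S : Set X) = ⊥ := by
      rw [← Subgroup.card_le_one_iff_eq_bot]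
      omega
    have h2 : g ∈ fixingSubgroup G (S : Set X) := (mem_fixingSubgroup_iff G).2 hg
    rw [h1] at h2
    exact Subgroup.mem_bot.1 h2
  | succ t ih =>
    intro S hS
    by_cases hbot : fixingSubgroup G (S : Set X) = ⊥
    · refine ⟨S, fun g hg => ?_, by omega⟩
      have h2 : g ∈ fixingSubgroup G (S : Set X) := (mem_fixingSubgroup_iff G).2 hg
      rw [hbot] at h2
      exact Subgroup.mem_bot.1 h2
    · obtain ⟨k, hk, hk1⟩ := (Subgroup.bot_or_exists_ne_one _).resolve_left hbot
      obtain ⟨x, hx⟩ : ∃ x : X, k • x ≠ x := by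
        by_contra hcon
        push Not at hcon
        exact hk1 (FaithfulSMul.eq_of_smul_eq_smul fun x => by rw [hcon x, one_smul])
      have hle : fixingSubgroup G ((insert x S : Finset X) : Set X) ≤
          fixingSubgroup G (S : Set X) := by
        intro g hg
        rw [mem_fixingSubgroup_iff] at hg ⊢
        exact fun y hy => hg y (by
          rw [Finset.coe_insert]
          exact Set.mem_insert_of_mem _ hy)
      have hne : fixingSubgroup G ((insert x S : Finset X) : Set X) ≠
          fixingSubgroup G (S : Set X) := by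
        intro h
        rw [← h, mem_fixingSubgroup_iff] at hk
        exact hx (hk x (by simp))
      obtain ⟨m, hm⟩ := Subgroup.card_dvd_of_le hle
      have hpos : 0 < Nat.card (fixingSubgroup G ((insert x S : Finset X) : Set X)) :=
        Nat.card_pos
      have hpos' : 0 < Nat.card (fixingSubgroup G (S : Set X)) := Nat.card_pos
      have hm2 : 2 ≤ m := by
        by_contra hlt
        have : m = 0 ∨ m = 1 := by omega
        rcases this with rfl | rfl
        · omega
        · exact hne (Subgroup.eq_of_le_of_card_ge hle (by omega))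
      obtain ⟨B, hB, hcard⟩ := ih (insert x S) (by
        have : Nat.card (fixingSubgroup G ((insert x S : Finset X) : Set X)) * 2 < 2 ^ (t + 1) * 2 :=
          calc _ ≤ Nat.card (fixingSubgroup G ((insert x S : Finset X) : Set X)) * m :=
                Nat.mul_le_mul_left _ hm2
            _ < 2 ^ (t + 1 + 1) := by rw [← hm]; exact hS
            _ = 2 ^ (t + 1) * 2 := pow_succ 2 (t + 1)
        exact lt_of_mul_lt_mul_right this (by norm_num))
      exact ⟨B, hB, hcard.trans (by have := Finset.card_insert_le x S; omega)⟩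

end Greedy

/-! ### The cases -/

section Cases

variable {n : ℕ} {X : Type u} [MulAction (Perm (Fin n)) X]

theorem conj_mem {x₀ : X} {g τ : Perm (Fin n)} (h : g • (τ • x₀) = τ • x₀) :
    τ⁻¹ * g * τ ∈ stabilizer (Perm (Fin n)) x₀ := by
  rw [mem_stabilizer_iff, mul_smul, mul_smul, h, inv_smul_smul]

theorem swap_conj_mem {x₀ : X} {g : Perm (Fin n)} {a b : Fin n}
    (h : g • (swap a b • x₀) = swap a b • x₀) :
    swap a b * g * swap a b ∈ stabilizer (Perm (Fin n)) x₀ := by
  have := conj_mem h
  rwa [swap_inv] at this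

/-- The conclusion we want. -/
def Good (n : ℕ) (X : Type u) [MulAction (Perm (Fin n)) X] : Prop :=
  ∃ B : Finset X, IsBase (Perm (Fin n)) (B : Set X) ∧ B.card ≤ n

theorem good_of_semiregular [FaithfulSMul (Perm (Fin n)) X] (S : Finset X) (p : Fin n)
    (hS : S.card ≤ n / 2)
    (h : ∀ g : Perm (Fin n), (∀ x ∈ S, g • x = x) → g p = p → g = 1) : Good n X := by
  have hcard : Nat.card (fixingSubgroup (Perm (Fin n)) (S : Set X)) ≤ n := by
    have := Nat.card_le_card_of_injective
      (fun g : fixingSubgroup (Perm (Fin n)) (S : Set X) => (g : Perm (Fin n)) p) ?_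
    · simpa using this
    · intro g g' hgg
      have h1 : (g'⁻¹ * g : fixingSubgroup (Perm (Fin n)) (S : Set X)).1 = 1 := by
        refine h _ ?_ ?_
        · have := (g'⁻¹ * g : fixingSubgroup (Perm (Fin n)) (S : Set X)).2
          rw [mem_fixingSubgroup_iff] at this
          exact this
        · change (g' : Perm (Fin n))⁻¹ ((g : Perm (Fin n)) p) = p
          rw [Perm.inv_eq_iff_eq]
          exact hgg
      have h2 : g'⁻¹ * g = 1 := Subtype.ext h1
      exact (inv_mul_eq_one.1 h2).symm
  obtain ⟨B, hB, hBcard⟩ := greedy (Nat.log 2 n) S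
    (hcard.trans_lt (Nat.lt_pow_succ_log_self (by norm_num) n))
  refine ⟨B, hB, hBcard.trans ?_⟩
  have hlog : Nat.log 2 n < n - n / 2 + 1 := by
    rcases Nat.eq_zero_or_pos n with rfl | hn
    · simp
    refine Nat.log_lt_of_lt_pow hn.ne' ?_
    have := @Nat.lt_two_pow_self (n - n / 2)
    rw [pow_succ]
    omega
  omega

theorem case_intransitive (x₀ : X) (O : Set (Fin n))
    (hO : ∀ h ∈ stabilizer (Perm (Fin n)) x₀, ∀ z, h z ∈ O ↔ z ∈ O) (a b : Fin n) (ha : a ∈ O)
    (hb : b ∉ O) : Good n X := by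
  classical
  let τ : Fin n → Perm (Fin n) := fun z => if z ∈ O then swap z b else swap a z
  refine ⟨insert x₀ ((Finset.univ.erase b).image fun z => τ z • x₀), fun g hg => ?_, ?_⟩
  · have hg0 : g ∈ stabilizer (Perm (Fin n)) x₀ := hg x₀ (by simp)
    have hgτ : ∀ z, z ≠ b → g • (τ z • x₀) = τ z • x₀ := fun z hz => hg _ (by
      rw [Finset.coe_insert]
      refine Set.mem_insert_of_mem _ (Finset.mem_coe.2 (Finset.mem_image.2 ⟨z, ?_, rfl⟩))
      exact Finset.mem_erase.2 ⟨hz, Finset.mem_univ z⟩)
    have key : ∀ u ∈ O, ∀ v, v ∉ O → g • (swap u v • x₀) = swap u v • x₀ → g u = u ∧ g v = v := by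
      intro u hu v hv h
      have h' := swap_conj_mem h
      have hne : u ≠ v := fun h => hv (h ▸ hu)
      constructor
      · by_contra hgu
        have h1 := (hO _ h' v).not.2 hv
        have h2 : g u ∈ O := (hO g hg0 u).2 hu
        rw [Perm.mul_apply, Perm.mul_apply, swap_apply_right,
          swap_apply_of_ne_of_ne hgu (fun h => hv (by rw [← h]; exact h2))] at h1
        exact h1 h2
      · by_contra hgv
        have h1 := (hO _ h' u).2 hu
        have h2 : g v ∉ O := (hO g hg0 v).not.2 hv
        rw [Perm.mul_apply, Perm.mul_apply, swap_apply_left,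
          swap_apply_of_ne_of_ne (fun h => h2 (by rw [h]; exact hu)) hgv] at h1
        exact h2 h1
    ext z
    rw [Perm.one_apply]
    by_cases hz : z ∈ O
    · have hzb : z ≠ b := fun h => hb (h ▸ hz)
      have := hgτ z hzb
      simp only [τ, if_pos hz] at this
      rw [(key z hz b hb this).1]
    · by_cases hzb : z = b
      · subst hzb
        have := hgτ a (fun h => hb (h ▸ ha))
        simp only [τ, if_pos ha] at this
        rw [(key a ha z hb this).2]
      · have := hgτ z hzb
        simp only [τ, if_neg hz] at this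
        rw [(key a ha z hz this).2]
  · refine (Finset.card_insert_le _ _).trans ?_
    have h1 := Finset.card_image_le (s := Finset.univ.erase b) (f := fun z => τ z • x₀)
    rw [Finset.card_erase_of_mem (Finset.mem_univ b), Finset.card_univ, Fintype.card_fin] at h1
    have := b.pos
    omega

theorem case_blocks (x₀ : X) (r : Fin n → Fin n → Prop) (hr : Equivalence r)
    (hH : ∀ h ∈ stabilizer (Perm (Fin n)) x₀, ∀ u v, r u v → r (h u) (h v))
    (hbig : ∀ u, ∃ w₁ w₂, w₁ ≠ w₂ ∧ w₁ ≠ u ∧ w₂ ≠ u ∧ r u w₁ ∧ r u w₂)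
    (a b : Fin n) (hab : ¬ r a b) : Good n X := by
  classical
  let τ : Fin n → Perm (Fin n) := fun z => if r a z then swap z b else swap a z
  refine ⟨insert x₀ ((Finset.univ.erase b).image fun z => τ z • x₀), fun g hg => ?_, ?_⟩
  · have hg0 : g ∈ stabilizer (Perm (Fin n)) x₀ := hg x₀ (by simp)
    have hgτ : ∀ z, z ≠ b → g • (τ z • x₀) = τ z • x₀ := fun z hz => hg _ (by
      rw [Finset.coe_insert]
      refine Set.mem_insert_of_mem _ (Finset.mem_coe.2 (Finset.mem_image.2 ⟨z, ?_, rfl⟩))
      exact Finset.mem_erase.2 ⟨hz, Finset.mem_univ z⟩)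
    have key : ∀ u v, ¬ r u v → g • (swap u v • x₀) = swap u v • x₀ → g u = u ∨ g u = v := by
      intro u v huv h
      have h' := swap_conj_mem h
      by_contra hcon
      push Not at hcon
      obtain ⟨hgu, hgv⟩ := hcon
      have h1 : ∀ w, w ≠ u → r u w → g w = u ∨ g w = v := by
        intro w hwu hw
        have hwv : w ≠ v := fun h => huv (h ▸ hw)
        by_contra hcon
        push Not at hcon
        have h2 : r (g w) (g u) := hH g hg0 w u (hr.symm hw)
        have h3 : (swap u v * g * swap u v) w = g w := by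
          rw [Perm.mul_apply, Perm.mul_apply, swap_apply_of_ne_of_ne hwu hwv,
            swap_apply_of_ne_of_ne hcon.1 hcon.2]
        have h4 : (swap u v * g * swap u v) v = g u := by
          rw [Perm.mul_apply, Perm.mul_apply, swap_apply_right, swap_apply_of_ne_of_ne hgu hgv]
        rw [← h3, ← h4] at h2
        have h5 := hH _ (inv_mem h') _ _ h2
        have e5 : ∀ (σ : Perm (Fin n)) (x : Fin n), σ⁻¹ (σ x) = x := fun σ x =>
          σ.symm_apply_apply x
        rw [e5, e5] at h5
        exact huv (hr.trans hw h5)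
      obtain ⟨w₁, w₂, hne, hw₁, hw₂, hr₁, hr₂⟩ := hbig u
      have e₁ : r (g w₁) (g u) := hH g hg0 _ _ (hr.symm hr₁)
      have e₂ : r (g w₂) (g u) := hH g hg0 _ _ (hr.symm hr₂)
      have e : r (g w₁) (g w₂) := hr.trans e₁ (hr.symm e₂)
      rcases h1 w₁ hw₁ hr₁ with h | h <;> rcases h1 w₂ hw₂ hr₂ with h' | h'
      · exact hne (g.injective (h.trans h'.symm))
      · rw [h, h'] at e; exact huv e
      · rw [h, h'] at e; exact huv (hr.symm e)
      · exact hne (g.injective (h.trans h'.symm))
    have key' : ∀ u v, ¬ r u v → g • (swap u v • x₀) = swap u v • x₀ → g v = v ∨ g v = u := by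
      intro u v huv h
      rw [swap_comm] at h
      exact key v u (fun h => huv (hr.symm h)) h
    -- `b` is fixed
    obtain ⟨w, -, -, hwa, -, haw, -⟩ := hbig a
    have haa : r a a := hr.refl a
    have hτ : ∀ z, r a z → g • (swap z b • x₀) = swap z b • x₀ := by
      intro z hz
      have hzb : z ≠ b := fun h => hab (h ▸ hz)
      have := hgτ z hzb
      simpa only [τ, if_pos hz] using this
    have hnr : ∀ z, r a z → ¬ r z b := fun z hz h => hab (hr.trans hz h)
    have hgb : g b = b := by
      rcases key' a b hab (hτ a haa) with h | h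
      · exact h
      · rcases key' w b (hnr w haw) (hτ w haw) with h' | h'
        · exact h'
        · exact absurd (h'.symm.trans h) hwa
    have hgO : ∀ z, r a z → g z = z := by
      intro z hz
      rcases key z b (hnr z hz) (hτ z hz) with h | h
      · exact h
      · have : z = b := g.injective (h.trans hgb.symm)
        exact absurd (this ▸ hz) hab
    ext z
    rw [Perm.one_apply]
    by_cases hz : r a z
    · rw [hgO z hz]
    · by_cases hzb : z = b
      · rw [hzb, hgb]
      · have h1 := hgτ z hzb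
        simp only [τ, if_neg hz] at h1
        rcases key' a z hz h1 with h | h
        · rw [h]
        · have : z = a := g.injective (h.trans (hgO a haa).symm)
          exact absurd (this ▸ haa) hz
  · refine (Finset.card_insert_le _ _).trans ?_
    have h1 := Finset.card_image_le (s := Finset.univ.erase b) (f := fun z => τ z • x₀)
    rw [Finset.card_erase_of_mem (Finset.mem_univ b), Finset.card_univ, Fintype.card_fin] at h1
    have := b.pos
    omega

theorem case_matching [FaithfulSMul (Perm (Fin n)) X] (x₀ : X) (z : Fin n → Fin n)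
    (hz : ∀ u, z (z u) = u) (hz' : ∀ u, z u ≠ u)
    (hH : ∀ h ∈ stabilizer (Perm (Fin n)) x₀, ∀ u, z (h u) = h (z u)) (p : Fin n) : Good n X := by
  classical
  let Y : Finset (Fin n) := Finset.univ.filter fun u => u < z u ∧ u ≠ p ∧ z u ≠ p
  refine good_of_semiregular (insert x₀ (Y.image fun y => swap p y • x₀)) p ?_ fun g hg hgp => ?_
  · refine (Finset.card_insert_le _ _).trans ?_
    have h1 := Finset.card_image_le (s := Y) (f := fun y => swap p y • x₀)
    have hzinj : Function.Injective z := fun u v h => by rw [← hz u, h, hz v]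
    have h2 : (Y.image z).card = Y.card := Finset.card_image_of_injective _ hzinj
    have h3 : Disjoint Y (Y.image z) := by
      rw [Finset.disjoint_left]
      rintro u hu hu'
      obtain ⟨v, hv, rfl⟩ := Finset.mem_image.1 hu'
      have a1 := (Finset.mem_filter.1 hu).2.1
      have a2 := (Finset.mem_filter.1 hv).2.1
      rw [hz] at a1
      exact absurd a1 (not_lt.2 a2.le)
    have h4 : Disjoint (Y ∪ Y.image z) {p, z p} := by
      rw [Finset.disjoint_left]
      rintro u hu hu'
      rw [Finset.mem_insert, Finset.mem_singleton] at hu'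
      rcases Finset.mem_union.1 hu with hu | hu
      · have a1 := (Finset.mem_filter.1 hu).2
        rcases hu' with rfl | rfl
        · exact a1.2.1 rfl
        · exact a1.2.2 (hz p)
      · obtain ⟨v, hv, rfl⟩ := Finset.mem_image.1 hu
        have a1 := (Finset.mem_filter.1 hv).2
        rcases hu' with h | h
        · exact a1.2.2 h
        · exact a1.2.1 (hzinj h)
    have h5 := Finset.card_le_univ ((Y ∪ Y.image z) ∪ {p, z p})
    rw [Finset.card_union_of_disjoint h4, Finset.card_union_of_disjoint h3, h2,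
      Finset.card_pair (hz' p).symm, Fintype.card_fin] at h5
    omega
  · have hg0 : g ∈ stabilizer (Perm (Fin n)) x₀ := hg x₀ (by simp)
    have hgzp : g (z p) = z p := by rw [← hH g hg0, hgp]
    have hY : ∀ y ∈ Y, g y = y ∧ g (z y) = z y := by
      intro y hy
      have hy' := (Finset.mem_filter.1 hy).2
      have h1 := swap_conj_mem (hg (swap p y • x₀) (Finset.mem_insert_of_mem
        (Finset.mem_image_of_mem _ hy)))
      have h2 := hH _ h1 y
      rw [Perm.mul_apply, Perm.mul_apply, swap_apply_right, hgp, swap_apply_left, Perm.mul_apply,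
        Perm.mul_apply, swap_apply_of_ne_of_ne hy'.2.2 (hz' y)] at h2
      have h3 : g (z y) = z y := by
        have h4 := congrArg (swap p y) h2
        rw [swap_apply_self, swap_apply_of_ne_of_ne hy'.2.2 (hz' y)] at h4
        exact h4.symm
      refine ⟨?_, h3⟩
      have h5 := hH g hg0 (z y)
      rw [h3, hz] at h5
      exact h5.symm
    ext u
    rw [Perm.one_apply]
    by_cases h1 : u = p
    · rw [h1, hgp]
    by_cases h2 : z u = p
    · have : u = z p := by rw [← h2, hz]
      rw [this, hgzp]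
    rcases lt_trichotomy u (z u) with h | h | h
    · rw [(hY u (Finset.mem_filter.2 ⟨Finset.mem_univ u, h, h1, h2⟩)).1]
    · exact absurd h.symm (hz' u)
    · have h3 := (hY (z u) (Finset.mem_filter.2 ⟨Finset.mem_univ _, by rwa [hz], h2, by
        rwa [hz]⟩)).2
      rw [hz] at h3
      rw [h3]

/-- If the supports of `u` and `v` meet exactly in `b`, then the commutator of `u` and `v` is a
three-cycle. -/
theorem commutator_isThreeCycle (u v : Perm (Fin n)) (b : Fin n) (hub : u b ≠ b) (hvb : v b ≠ b)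
    (h : ∀ x, x ≠ b → u x = x ∨ v x = x) : (u * v * u⁻¹ * v⁻¹).IsThreeCycle := by
  have huvb : u (v b) = v b := (h (v b) hvb).resolve_right fun h' => hvb (v.injective h')
  have hvub : v (u b) = u b := (h (u b) hub).resolve_left fun h' => hub (u.injective h')
  have hne : v b ≠ u b := fun h' => hub (u.injective (by rw [← h', huvb]))
  have key : v * u = swap b (v b) * u * swap b (v b) * v := by
    ext x
    congr 1
    rw [Perm.mul_apply, Perm.mul_apply, Perm.mul_apply, Perm.mul_apply]
    by_cases hxb : x = b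
    · subst hxb
      rw [swap_apply_right, hvub, swap_apply_of_ne_of_ne hub hne.symm]
    · by_cases hux : u x = x
      · rw [hux]
        by_cases hvx : v x = b
        · rw [hvx, swap_apply_left, huvb, swap_apply_right]
        · have h1 : v x ≠ v b := fun h' => hxb (v.injective h')
          have h2 : u (v x) = v x := by
            by_cases h3 : v x = x
            · rw [h3, hux]
            · exact (h (v x) hvx).resolve_right fun h' => h3 (v.injective h')
          rw [swap_apply_of_ne_of_ne hvx h1, h2, swap_apply_of_ne_of_ne hvx h1]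
      · have hvx : v x = x := (h x hxb).resolve_left hux
        have hxv : x ≠ v b := fun h' => hux (by rw [h', huvb])
        rw [hvx, swap_apply_of_ne_of_ne hxb hxv]
        by_cases huxb : u x = b
        · rw [huxb, swap_apply_left]
        · have h1 : v (u x) = u x := (h (u x) huxb).resolve_left fun h' => hux (u.injective h')
          have h2 : u x ≠ v b := fun h' => hux (u.injective (by rw [h', huvb]))
          rw [h1, swap_apply_of_ne_of_ne huxb h2]
  have key2 : v * u⁻¹ * v⁻¹ = swap b (v b) * u⁻¹ * swap b (v b) := by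
    have h1 : v * u * v⁻¹ = swap b (v b) * u * swap b (v b) := by
      rw [key]; group
    have h2 := congrArg (fun σ => σ⁻¹) h1
    simp only [mul_inv_rev, inv_inv, swap_inv] at h2
    rw [← mul_assoc, ← mul_assoc] at h2
    exact h2
  have key3 : u * v * u⁻¹ * v⁻¹ = swap (v b) (u b) * swap (v b) b := by
    calc u * v * u⁻¹ * v⁻¹ = u * (v * u⁻¹ * v⁻¹) := by group
      _ = (u * swap b (v b) * u⁻¹) * swap b (v b) := by rw [key2]; group
      _ = swap (u b) (u (v b)) * swap b (v b) := by rw [swap_apply_apply]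
      _ = swap (v b) (u b) * swap (v b) b := by rw [huvb, swap_comm (u b), swap_comm b]
  rw [key3]
  exact Perm.isThreeCycle_swap_mul_swap_same hne hvb hub

theorem case_primitive [FaithfulSMul (Perm (Fin n)) X] (x₀ : X)
    (h3 : ∀ g ∈ stabilizer (Perm (Fin n)) x₀, ¬ g.IsThreeCycle) (hn : 1 ≤ n) : Good n X := by
  classical
  let P : Finset (Fin n) → Prop := fun B =>
    ∀ g ∈ stabilizer (Perm (Fin n)) x₀, (∀ b ∈ B, g b = b) → g = 1
  obtain ⟨B, hB, hmin⟩ : ∃ B, P B ∧ ∀ B', P B' → B.card ≤ B'.card := by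
    obtain ⟨B, hB, hmin⟩ := Finset.exists_min_image
      ((Finset.univ : Finset (Finset (Fin n))).filter P) Finset.card
      ⟨Finset.univ, Finset.mem_filter.2 ⟨Finset.mem_univ _, fun g _ hg => by
        ext x
        rw [hg x (Finset.mem_univ x), Perm.one_apply]⟩⟩
    exact ⟨B, (Finset.mem_filter.1 hB).2, fun B' hB' =>
      hmin B' (Finset.mem_filter.2 ⟨Finset.mem_univ _, hB'⟩)⟩
  have hcard : B.card ≤ n / 2 := by
    by_contra hcon
    have h1 : ¬ P Bᶜ := fun h => by
      have h2 := hmin _ h
      rw [Finset.card_compl, Fintype.card_fin] at h2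
      omega
    simp only [P] at h1
    push Not at h1
    obtain ⟨u, hu, hu1, hu2⟩ := h1
    obtain ⟨b, hub⟩ : ∃ b, u b ≠ b := by
      by_contra hc
      push Not at hc
      exact hu2 (by ext x; rw [hc x, Perm.one_apply])
    have hbB : b ∈ B := by
      by_contra hbB
      exact hub (hu1 b (Finset.mem_compl.2 hbB))
    have h2 : ¬ P (B.erase b) := fun h => by
      have h2 := hmin _ h
      rw [Finset.card_erase_of_mem hbB] at h2
      have := Finset.card_pos.2 ⟨b, hbB⟩
      omega
    simp only [P] at h2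
    push Not at h2
    obtain ⟨v, hv, hv1, hv2⟩ := h2
    have hvb : v b ≠ b := fun h => hv2 (hB v hv fun x hx => by
      by_cases hxb : x = b
      · rw [hxb, h]
      · exact hv1 x (Finset.mem_erase.2 ⟨hxb, hx⟩))
    refine h3 _ (mul_mem (mul_mem (mul_mem hu hv) (inv_mem hu)) (inv_mem hv))
      (commutator_isThreeCycle u v b hub hvb fun x hx => ?_)
    by_cases hxB : x ∈ B
    · exact Or.inr (hv1 x (Finset.mem_erase.2 ⟨hx, hxB⟩))
    · exact Or.inl (hu1 x (Finset.mem_compl.2 hxB))
  rcases B.eq_empty_or_nonempty with rfl | ⟨b₀, hb₀⟩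
  · refine ⟨{x₀}, fun g hg => hB g (hg x₀ (by simp)) (by simp), by simpa using hn⟩
  · refine good_of_semiregular (insert x₀ ((B.erase b₀).image fun j => swap b₀ j • x₀)) b₀ ?_
      fun g hg hgb => ?_
    · refine (Finset.card_insert_le _ _).trans ?_
      have h1 := Finset.card_image_le (s := B.erase b₀) (f := fun j => swap b₀ j • x₀)
      rw [Finset.card_erase_of_mem hb₀] at h1
      have := Finset.card_pos.2 ⟨b₀, hb₀⟩
      omega
    · have hg0 : g ∈ stabilizer (Perm (Fin n)) x₀ := hg x₀ (by simp)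
      refine hB g hg0 fun j hj => ?_
      by_cases hjb : j = b₀
      · rw [hjb, hgb]
      have h1 := swap_conj_mem (hg (swap b₀ j • x₀) (Finset.mem_insert_of_mem
        (Finset.mem_image_of_mem _ (Finset.mem_erase.2 ⟨hjb, hj⟩))))
      by_contra hgj
      refine h3 _ (mul_mem h1 (inv_mem hg0)) ?_
      have h4 : swap b₀ j * g * swap b₀ j * g⁻¹ = swap b₀ j * swap b₀ (g j) := by
        calc swap b₀ j * g * swap b₀ j * g⁻¹ = swap b₀ j * (g * swap b₀ j * g⁻¹) := by group
          _ = swap b₀ j * swap (g b₀) (g j) := by rw [swap_apply_apply]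
          _ = swap b₀ j * swap b₀ (g j) := by rw [hgb]
      rw [h4]
      refine Perm.isThreeCycle_swap_mul_swap_same (Ne.symm hjb) (fun h => hjb ?_)
        (Ne.symm hgj)
      exact g.injective (h.symm.trans hgb.symm)

theorem good_of_block [FaithfulSMul (Perm (Fin n)) X] (x₀ : X)
    (ht : IsPretransitive (stabilizer (Perm (Fin n)) x₀) (Fin n)) (B : Set (Fin n))
    (hB : IsBlock (stabilizer (Perm (Fin n)) x₀) B) (hB1 : ¬ B.Subsingleton)
    (hB2 : B ≠ Set.univ) : Good n X := by
  classical
  rw [Set.not_subsingleton_iff] at hB1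
  obtain ⟨p, hp, q, hq, hpq⟩ := hB1
  obtain ⟨y, hy⟩ := (Set.ne_univ_iff_exists_notMem B).1 hB2
  have hblk : ∀ g ∈ stabilizer (Perm (Fin n)) x₀, ∀ u ∈ B, g u ∈ B → ∀ v ∈ B, g v ∈ B := by
    intro g hg u hu hgu v hv
    have h1 := isBlock_iff_smul_eq_of_mem.1 hB (g := ⟨g, hg⟩) hu hgu
    rw [← h1]
    exact Set.smul_mem_smul_set hv
  have htr : ∀ u, ∃ h ∈ stabilizer (Perm (Fin n)) x₀, h u ∈ B := by
    intro u
    obtain ⟨h, hh⟩ := ht.exists_smul_eq u p
    exact ⟨h.1, h.2, by rw [show (h.1 : Perm (Fin n)) u = p from hh]; exact hp⟩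
  let r : Fin n → Fin n → Prop := fun u v =>
    ∃ h ∈ stabilizer (Perm (Fin n)) x₀, h u ∈ B ∧ h v ∈ B
  have hcl : ∀ h ∈ stabilizer (Perm (Fin n)) x₀, ∀ u v, h u ∈ B → r u v → h v ∈ B := by
    rintro h hh u v hu ⟨k, hk, hku, hkv⟩
    have h1 := hblk (h * k⁻¹) (mul_mem hh (inv_mem hk)) (k u) hku
      (by
        rw [Perm.mul_apply, show k⁻¹ (k u) = u from k.symm_apply_apply u]
        exact hu) (k v) hkv
    rw [Perm.mul_apply, show k⁻¹ (k v) = v from k.symm_apply_apply v] at h1
    exact h1
  have hr : Equivalence r := by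
    refine ⟨fun u => ?_, ?_, ?_⟩
    · obtain ⟨h, hh, hu⟩ := htr u
      exact ⟨h, hh, hu, hu⟩
    · rintro u v ⟨h, hh, hu, hv⟩
      exact ⟨h, hh, hv, hu⟩
    · rintro u v w ⟨h, hh, hu, hv⟩ hvw
      exact ⟨h, hh, hu, hcl h hh v w hv hvw⟩
  have hrH : ∀ h ∈ stabilizer (Perm (Fin n)) x₀, ∀ u v, r u v → r (h u) (h v) := by
    rintro h hh u v ⟨k, hk, hku, hkv⟩
    refine ⟨k * h⁻¹, mul_mem hk (inv_mem hh), ?_, ?_⟩
    · rw [Perm.mul_apply, show h⁻¹ (h u) = u from h.symm_apply_apply u]
      exact hku
    · rw [Perm.mul_apply, show h⁻¹ (h v) = v from h.symm_apply_apply v]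
      exact hkv
  by_cases hsize : ∀ w ∈ B, w = p ∨ w = q
  · -- blocks of size two
    have hex : ∀ u, ∃ w, w ≠ u ∧ r u w ∧ ∀ w', w' ≠ u → r u w' → w' = w := by
      intro u
      obtain ⟨h, hh, hu⟩ := htr u
      obtain ⟨t, ht, htu, htB⟩ : ∃ t ∈ B, t ≠ h u ∧ ∀ w ∈ B, w ≠ h u → w = t := by
        rcases hsize _ hu with h1 | h1
        · exact ⟨q, hq, by rw [h1]; exact hpq.symm, fun w hw hne =>
            (hsize w hw).resolve_left (by rwa [h1] at hne)⟩
        · exact ⟨p, hp, by rw [h1]; exact hpq, fun w hw hne =>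
            (hsize w hw).resolve_right (by rwa [h1] at hne)⟩
      have e1 : h (h⁻¹ t) = t := h.apply_symm_apply t
      refine ⟨h⁻¹ t, fun h2 => htu (by rw [← h2, e1]), ⟨h, hh, hu, by rw [e1]; exact ht⟩,
        fun w' hw' hr' => ?_⟩
      have h3 := htB (h w') (hcl h hh u w' hu hr') fun h4 => hw' (h.injective h4)
      rw [← h3]
      exact (h.symm_apply_apply w').symm
    choose z hz1 hz2 hz3 using hex
    refine case_matching x₀ z (fun u => ?_) hz1 (fun h hh u => ?_) p
    · exact (hz3 (z u) u (hz1 u).symm (hr.symm (hz2 u))).symm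
    · exact (hz3 (h u) (h (z u)) (fun h' => hz1 u (h.injective h')) (hrH h hh _ _ (hz2 u))).symm
  · push Not at hsize
    obtain ⟨s, hs, hsp, hsq⟩ := hsize
    refine case_blocks x₀ r hr hrH (fun u => ?_) p y fun h => hy ?_
    · obtain ⟨h, hh, hu⟩ := htr u
      have e : ∀ t, h (h⁻¹ t) = t := fun t => h.apply_symm_apply t
      have main : ∀ t₁ ∈ B, ∀ t₂ ∈ B, t₁ ≠ t₂ → t₁ ≠ h u → t₂ ≠ h u →
          ∃ w₁ w₂, w₁ ≠ w₂ ∧ w₁ ≠ u ∧ w₂ ≠ u ∧ r u w₁ ∧ r u w₂ := by
        intro t₁ ht₁ t₂ ht₂ hne hne₁ hne₂
        exact ⟨h⁻¹ t₁, h⁻¹ t₂, fun h' => hne ((h⁻¹).injective h'),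
          fun h' => hne₁ (by rw [← h', e]), fun h' => hne₂ (by rw [← h', e]),
          ⟨h, hh, hu, by rw [e]; exact ht₁⟩, ⟨h, hh, hu, by rw [e]; exact ht₂⟩⟩
      by_cases h1 : h u = p
      · exact main q hq s hs hsq.symm (by rw [h1]; exact hpq.symm) (by rw [h1]; exact hsp)
      · by_cases h2 : h u = q
        · exact main p hp s hs hsp.symm (by rw [h2]; exact hpq) (by rw [h2]; exact hsq)
        · exact main p hp q hq hpq (Ne.symm h1) (Ne.symm h2)
    · exact hcl 1 (one_mem _) p y hp h

theorem good (n : ℕ) (X : Type u) [MulAction (Perm (Fin n)) X] [FaithfulSMul (Perm (Fin n)) X] :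
    Good n X := by
  classical
  by_cases hn : n ≤ 2
  · obtain ⟨B, hB, hcard⟩ := greedy (G := Perm (Fin n)) n (∅ : Finset X) (by
      have h1 : Nat.card (fixingSubgroup (Perm (Fin n)) ((∅ : Finset X) : Set X)) ≤
          Nat.card (Perm (Fin n)) := Subgroup.card_le_card_group _
      rw [Nat.card_eq_fintype_card, Nat.card_eq_fintype_card, Fintype.card_perm,
        Fintype.card_fin] at h1
      rw [Nat.card_eq_fintype_card]
      refine h1.trans_lt ?_
      interval_cases n <;> decide)
    exact ⟨B, hB, by simpa using hcard⟩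
  push Not at hn
  obtain ⟨m, rfl⟩ : ∃ m, n = m + 3 := ⟨n - 3, by omega⟩
  have h3 : (swap (⟨0, by omega⟩ : Fin (m + 3)) ⟨1, by omega⟩ *
      swap (⟨0, by omega⟩ : Fin (m + 3)) ⟨2, by omega⟩).IsThreeCycle :=
    Perm.isThreeCycle_swap_mul_swap_same (by simp) (by simp) (by simp)
  obtain ⟨x₀, hx₀⟩ : ∃ x : X, (swap (⟨0, by omega⟩ : Fin (m + 3)) ⟨1, by omega⟩ *
      swap (⟨0, by omega⟩ : Fin (m + 3)) ⟨2, by omega⟩) • x ≠ x := by
    by_contra hcon
    push Not at hcon
    have : swap (⟨0, by omega⟩ : Fin (m + 3)) ⟨1, by omega⟩ *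
        swap (⟨0, by omega⟩ : Fin (m + 3)) ⟨2, by omega⟩ = 1 :=
      FaithfulSMul.eq_of_smul_eq_smul fun x : X => by rw [hcon x, one_smul]
    rw [this] at h3
    have := h3.orderOf
    rw [orderOf_one] at this
    omega
  by_cases ht : IsPretransitive (stabilizer (Perm (Fin (m + 3))) x₀) (Fin (m + 3))
  · by_cases hp : IsPreprimitive (stabilizer (Perm (Fin (m + 3))) x₀) (Fin (m + 3))
    · refine case_primitive x₀ (fun g hg h3g => ?_) (by omega)
      have := Perm.alternatingGroup_le_of_isPreprimitive_of_isThreeCycle_mem hp h3g hg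
      exact hx₀ (this h3.mem_alternatingGroup)
    · obtain ⟨B, hB, hB'⟩ : ∃ B : Set (Fin (m + 3)),
          IsBlock (stabilizer (Perm (Fin (m + 3))) x₀) B ∧ ¬ IsTrivialBlock B := by
        by_contra hcon
        push Not at hcon
        exact hp { isTrivialBlock_of_isBlock := fun {B} hB => hcon B hB }
      unfold IsTrivialBlock at hB'
      push Not at hB'
      exact good_of_block x₀ ht B hB (Set.not_subsingleton_iff.2 hB'.1) hB'.2
  · obtain ⟨a, b, hab⟩ : ∃ a b : Fin (m + 3), ∀ h ∈ stabilizer (Perm (Fin (m + 3))) x₀,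
        h a ≠ b := by
      by_contra hcon
      push Not at hcon
      exact ht ⟨fun a b => by
        obtain ⟨h, hh, hab⟩ := hcon a b
        exact ⟨⟨h, hh⟩, hab⟩⟩
    refine case_intransitive x₀ {z | ∃ h ∈ stabilizer (Perm (Fin (m + 3))) x₀, h a = z}
      (fun h hh z => ⟨?_, ?_⟩) a b ⟨1, one_mem _, rfl⟩ ?_
    · rintro ⟨k, hk, hka⟩
      exact ⟨h⁻¹ * k, mul_mem (inv_mem hh) hk, by
        rw [Perm.mul_apply, hka]
        exact h.symm_apply_apply z⟩
    · rintro ⟨k, hk, hka⟩
      exact ⟨h * k, mul_mem hh hk, by rw [Perm.mul_apply, hka]⟩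
    · rintro ⟨h, hh, hb⟩
      exact hab h hh hb

end Cases

/-- **Main theorem.** For every `n`, every faithful action of the symmetric group `S_n` on a set
`X` has a base of cardinality at most `n`; that is, the base size (which is attained) is at most
`n`. -/
theorem result (n : ℕ) (X : Type u) [Finite X] [MulAction (Perm (Fin n)) X]
    [FaithfulSMul (Perm (Fin n)) X] :
    ∃ B : Finset X, IsBase (Perm (Fin n)) (B : Set X) ∧ B.card = baseSize (Perm (Fin n)) X ∧
      baseSize (Perm (Fin n)) X ≤ n := by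
  obtain ⟨B, hB, hcard⟩ := good n X
  have hne : {k | ∃ B : Finset X, IsBase (Perm (Fin n)) (B : Set X) ∧ B.card = k}.Nonempty :=
    ⟨B.card, B, hB, rfl⟩
  obtain ⟨B', hB', hcard'⟩ := Nat.sInf_mem hne
  have hle : baseSize (Perm (Fin n)) X ≤ B.card := Nat.sInf_le ⟨B, hB, rfl⟩
  exact ⟨B', hB', hcard', hle.trans hcard⟩

end Pool.Agent.Results.MP_3e5dca_al.BaseSizeLeDegree
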